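import Mathlib
import Pool.Agent.H295R3.NA.Stmts

set_option autoImplicit false

open Finset

namespace Pool.Agent.H856R3.NA

open Pool.Agent.H295R3.NA

theorem cnt_mul (r a b : ℕ) (h : a.Coprime b) : cnt r (a * b) = cnt r a + cnt r b := by
  unfold cnt
  rw [h.primeFactors_mul, Finset.filter_union, Finset.card_union_of_disjoint]
  · congr 1
    · congr 1
      apply Finset.filter_congr
      intro q hq
      have hqp := Nat.prime_of_mem_primeFactors hq
      have hqa := Nat.dvd_of_mem_primeFactors hq
      have hc : (q ^ 2).Coprime b := (Nat.Coprime.coprime_dvd_left hqa h).pow_left 2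
      rw [hc.dvd_mul_right]
    · congr 1
      apply Finset.filter_congr
      intro q hq
      have hqp := Nat.prime_of_mem_primeFactors hq
      have hqb := Nat.dvd_of_mem_primeFactors hq
      have hc : (q ^ 2).Coprime a := (Nat.Coprime.coprime_dvd_left hqb h.symm).pow_left 2
      rw [hc.dvd_mul_left]
  · exact (Finset.disjoint_filter_filter h.disjoint_primeFactors)

theorem cnt_prime_pow_ge_two (r p a : ℕ) (hp : p.Prime) (ha : 2 ≤ a) : cnt r (p ^ a) = 0 := by
  unfold cnt
  rw [Nat.primeFactors_prime_pow (by omega) hp, Finset.card_eq_zero, Finset.filter_eq_empty_iff]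
  intro q hq
  rw [Finset.mem_singleton] at hq
  subst hq
  intro h
  exact h.1 (pow_dvd_pow _ ha)

theorem cnt_prime (r p : ℕ) (hp : p.Prime) : cnt r p = if r ∣ p + 1 then 1 else 0 := by
  unfold cnt
  rw [hp.primeFactors, Finset.filter_singleton]
  have h2 : ¬ p ^ 2 ∣ p := by
    intro h
    have h1 := Nat.le_of_dvd hp.pos h
    have h3 := hp.two_le
    nlinarith
  by_cases h : r ∣ p + 1
  · simp [h, h2]
  · simp [h, h2]

theorem ss_mul (a b : ℕ) (h : a.Coprime b) : ss (a * b) = ss a * ss b :=
  h.sum_divisors_mul

theorem dd_mul (a b : ℕ) (h : a.Coprime b) : dd (a * b) = dd a * dd b :=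
  h.card_divisors_mul

theorem ss_pos (a : ℕ) (h : a ≠ 0) : ss a ≠ 0 := by
  unfold ss
  have h1 : 1 ∈ a.divisors := Nat.one_mem_divisors.2 h
  have : 1 ≤ ∑ d ∈ a.divisors, d := Finset.single_le_sum (f := fun d => d) (fun _ _ => Nat.zero_le _) h1
  omega

theorem dd_pos (a : ℕ) (h : a ≠ 0) : dd a ≠ 0 := by
  unfold dd
  have h1 : 1 ∈ a.divisors := Nat.one_mem_divisors.2 h
  exact Finset.card_ne_zero_of_mem h1

theorem ss_prime_pow (p k : ℕ) (hp : p.Prime) : ss (p ^ k) = ∑ i ∈ range (k + 1), p ^ i :=
  Nat.sum_divisors_prime_pow (f := fun d => d) hp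

theorem dd_prime_pow (p k : ℕ) (hp : p.Prime) : dd (p ^ k) = k + 1 := by
  unfold dd
  rw [Nat.divisors_prime_pow hp, Finset.card_map, Finset.card_range]

theorem cnt_one (r : ℕ) : cnt r 1 = 0 := by simp [cnt]

theorem taskF1 : TaskF1 := by
  intro l n hl
  haveI := Fact.mk hl
  induction n using Nat.recOnPosPrimePosCoprime with
  | zero => intro h; omega
  | one => intro _; rw [cnt_one]; exact Nat.zero_le _
  | prime_pow p a hp ha =>
    intro _
    rcases Nat.lt_or_ge a 2 with h | h
    · have ha1 : a = 1 := by omega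
      subst ha1
      rw [pow_one, cnt_prime l p hp]
      split_ifs with hd
      · apply one_le_padicValNat_of_dvd (ss_pos p hp.ne_zero)
        have h1 := ss_prime_pow p 1 hp
        rw [pow_one] at h1
        rw [h1, Finset.sum_range_succ, Finset.sum_range_one, pow_zero, pow_one, add_comm]
        exact hd
      · exact Nat.zero_le _
    · rw [cnt_prime_pow_ge_two l p a hp h]
      exact Nat.zero_le _
  | coprime a b ha hb hab iha ihb =>
    intro _
    rw [cnt_mul l a b hab, ss_mul a b hab, padicValNat.mul (ss_pos a (by omega)) (ss_pos b (by omega))]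
    exact add_le_add (iha (by omega)) (ihb (by omega))

/-- geometric sums of odd bases -/
theorem geom_dvd (e : ℕ) : ∀ y m : ℕ, Odd y → 2 ^ e ∣ m → 2 ^ e ∣ ∑ j ∈ range m, y ^ j := by
  induction e with
  | zero => intro y m _ _; simp
  | succ e ih =>
    intro y m hy hm
    obtain ⟨c, rfl⟩ := hm
    have h1 : 2 ^ (e + 1) * c = 2 * (2 ^ e * c) := by ring
    rw [h1, geom_two y (2 ^ e * c), pow_succ, mul_comm (2 ^ e) 2]
    refine mul_dvd_mul ?_ (ih _ _ (hy.pow) (dvd_mul_right _ _))
    obtain ⟨k, hk⟩ := hy
    exact ⟨k + 1, by omega⟩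
where
  geom_two (y m : ℕ) : ∑ j ∈ range (2 * m), y ^ j = (1 + y) * ∑ j ∈ range m, (y ^ 2) ^ j := by
    induction m with
    | zero => simp
    | succ m ih =>
      rw [show 2 * (m + 1) = 2 * m + 1 + 1 by ring, Finset.sum_range_succ, Finset.sum_range_succ, ih,
        Finset.sum_range_succ]
      ring

theorem taskF2 : TaskF2 := by
  haveI : Fact (Nat.Prime 2) := ⟨Nat.prime_two⟩
  intro n
  induction n using Nat.recOnPosPrimePosCoprime with
  | zero => intro h; omega
  | one => intro _; rw [cnt_one]; simp [dd]
  | prime_pow p a hp ha =>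
    intro _
    rw [dd_prime_pow p a hp]
    by_cases hp2 : p = 2
    · subst hp2
      have h0 : cnt 4 (2 ^ a) = 0 := by
        rcases Nat.lt_or_ge a 2 with h | h
        · have ha1 : a = 1 := by omega
          subst ha1
          rw [pow_one, cnt_prime 4 2 hp]
          simp
        · exact cnt_prime_pow_ge_two 4 2 a hp h
      rw [h0, padicValNat.prime_pow]
      omega
    · have hodd : Odd p := hp.odd_of_ne_two hp2
      rcases Nat.even_or_odd a with hev | hod
      · have h2 : ¬ 2 ∣ a + 1 := by
          obtain ⟨c, hc⟩ := hev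
          omega
        rw [padicValNat.eq_zero_of_not_dvd h2, cnt_prime_pow_ge_two 4 p a hp (by
          obtain ⟨c, hc⟩ := hev
          omega)]
        exact Nat.zero_le _
      · obtain ⟨c, hc⟩ := hod
        have ha1 : a + 1 = 2 * (c + 1) := by omega
        have hss : ss (p ^ a) = (1 + p) * ∑ j ∈ range (c + 1), (p ^ 2) ^ j := by
          rw [ss_prime_pow p a hp, ha1, geom_dvd.geom_two]
        have hne : ss (p ^ a) ≠ 0 := ss_pos _ (pow_ne_zero _ hp.ne_zero)
        have hne1 : (1 + p) ≠ 0 := by omega
        have hne2 : (∑ j ∈ range (c + 1), (p ^ 2) ^ j) ≠ 0 := by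
          intro h
          rw [h, mul_zero] at hss
          exact hne hss
        rw [hss, padicValNat.mul hne1 hne2, ha1, padicValNat.mul (by norm_num) (by omega), padicValNat_self]
        have h1 : padicValNat 2 (c + 1) ≤ padicValNat 2 (∑ j ∈ range (c + 1), (p ^ 2) ^ j) := by
          rw [← padicValNat_dvd_iff_le hne2]
          exact geom_dvd _ _ _ (hodd.pow) pow_padicValNat_dvd
        have h2 : 1 ≤ padicValNat 2 (1 + p) := by
          apply one_le_padicValNat_of_dvd hne1
          obtain ⟨k, hk⟩ := hodd
          exact ⟨k + 1, by omega⟩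
        rcases Nat.lt_or_ge a 2 with h | h
        · have hc0 : c = 0 := by omega
          have ha' : a = 1 := by omega
          subst hc0
          subst ha'
          rw [pow_one, cnt_prime 4 p hp]
          split_ifs with hd
          · have h3 : 2 ≤ padicValNat 2 (1 + p) := by
              rw [← padicValNat_dvd_iff_le hne1]
              rw [add_comm]
              exact hd
            simp
            omega
          · simp
            omega
        · rw [cnt_prime_pow_ge_two 4 p a hp h]
          omega
  | coprime a b ha hb hab iha ihb =>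
    intro _
    rw [cnt_mul 4 a b hab, ss_mul a b hab, padicValNat.mul (ss_pos a (by omega)) (ss_pos b (by omega)),
      dd_mul a b hab, padicValNat.mul (dd_pos a (by omega)) (dd_pos b (by omega)),
      padicValNat.mul (by omega : a ≠ 0) (by omega : b ≠ 0)]
    have h1 := iha (by omega)
    have h2 := ihb (by omega)
    have h3 : padicValNat 2 (padicValNat 2 a + 1) + padicValNat 2 (padicValNat 2 b + 1) =
        padicValNat 2 (padicValNat 2 a + padicValNat 2 b + 1) := by
      by_cases h : 2 ∣ a
      · have hb2 : ¬ 2 ∣ b := by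
          intro h'
          have := Nat.dvd_gcd h h'
          rw [hab] at this
          omega
        rw [padicValNat.eq_zero_of_not_dvd hb2]
        simp
      · rw [padicValNat.eq_zero_of_not_dvd h]
        simp
    omega

end Pool.Agent.H856R3.NA
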